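import Pool.Agent.W4h4.AS.Main

set_option autoImplicit false

/-!
# The relative nef cone conjecture for fibre products with families of abelian varieties

Let `Y → Z'` be a projective family of abelian varieties, which need not be isotrivial, `F → Z'` a
projective morphism, `G` a finite group which acts on `Y`, `F` and `Z'`, and let
`X = (Y ×_{Z'} F) / G → Z = Z' / G`. We prove that part (1) of the Morrison-Kawamata cone conjecture for the
nef cone of `F/Z'` (without a group `G`) implies the conjecture for `X/Z`: the group `Aut(X/Z)`, or
`Aut(X/Z, Δ)`, acts on the cone `A^e(X/Z)` of nef and effective classes with a rational polyhedral
fundamental domain. There is no condition if `F = Z'` (take `ρ = 0`), and then `X` is a family of abelian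
varieties or a quotient of one, or if the cone `A^e(F/Z')` is rational polyhedral (take the trivial group
for `H`).

The varieties are given by the following data.

* The family `Y → Z'` is given by its period data `IsFamily Λ 𝒥 M`: `Λ` is a full lattice in the real vector
  space `V` (the first homology of the fibres), `𝒥` is the set of the complex structures on `V` which are
  given by the fibres (after transport along paths in `Z'`), and the elements of `M` are the
  automorphisms of `Λ` which are given by the monodromy and the elements of `G`; they permute `𝒥`; there is
  a relatively ample class.
* `N1 Λ 𝒥 M = N^1(Y/Z')^G` is the real vector space which is spanned by the integral classes: the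
  alternating forms `E` on `V` which are integral on `Λ`, of type `(1,1)` on all fibres, and invariant under
  `M`. The cone `nefEff = A^e(Y/Z')^G` is spanned by the integral classes with `E(v, J v) ≥ 0` for all `v` and
  all `J` in `𝒥`.
* The morphism `F → Z'` is given by the data `IsFactor Θ A H Q`: the space `N^1(F/Z') = ℝ^ρ` with the lattice
  `ℤ^ρ` of integral classes, the convex cone `A = A^e(F/Z')`, the action `Θ` of a group of automorphisms of
  `F` on `N^1(F/Z')`, the group `H` of the automorphisms over `Z'` (which preserve a boundary divisor, if
  there is one), and the finite group `Q`, the image of `G`. The condition is part (1) of the conjecture:
  `A` is covered by the translates under `H` of a cone which is spanned by finitely many integral classes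
  in `A`. Only finitely many elements of `H` act trivially.
* `N^1(X/Z) = N1X = N^1(Y/Z')^G × N^1(F/Z')^Q`, and `A^e(X/Z) = nefEffX = A^e(Y/Z')^G × A^e(F/Z')^Q`.
* `IsAutGroup A H k 𝒢`: the group `𝒢` of automorphisms of `N^1(X/Z)` preserves `A^e(X/Z)` and a lattice which is
  commensurable with the lattice of integral classes (the classes of line bundles on `X` form such a
  lattice, which is preserved by all automorphisms), and contains the pairs `(u^*, h_*)`, where `u` is an
  automorphism of `(Λ, 𝒥, M)` which is congruent to the identity modulo `k`, and `h` is an element of `H`
  which commutes with `Q`.

The dictionary between varieties and these data is classical, and it is not a part of the Lean proof. Let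
`Y → Z'` be a smooth projective morphism to a normal quasi-projective variety whose fibres are abelian
varieties (without zero section in general, so `Y` is a torsor under an abelian scheme `𝒜/Z'`).

* A line bundle on `Y` has a class in `H^2` of the fibres, which is invariant under the monodromy and of
  type `(1,1)` on all fibres. Conversely, such a class gives a homomorphism `𝒜 → 𝒜^t` to the dual abelian
  scheme, and then a multiple of the class is the class of a line bundle on `𝒜`, and of one on `Y`.
* Effective divisors are nef on the fibres. A line bundle which is nef on the fibres is, up to a multiple
  and up to line bundles which are numerically trivial over `Z'`, the pullback of a relatively ample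
  line bundle on a quotient of the abelian scheme, and hence effective.
* The automorphisms of `𝒜/Z'` which preserve the zero section are the automorphisms of the lattice which
  commute with all complex structures and with the monodromy. If they commute with the linear parts of
  the elements of `G` and act trivially on the points of order `k`, for a suitable `k` (which depends on
  the order of the torsor and on the translation parts of the elements of `G`), then they come from
  automorphisms of `Y/Z'` which commute with `G`. So the pairs `(u, h)` give automorphisms of `X/Z`.
* The space `N^1(Y ×_{Z'} F / Z')` is the product of `N^1(Y/Z')` and `N^1(F/Z')`, and the same is true for the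
  cones `A^e`, if the general fibre of `F → Z'` has irregularity `0` (or `F = Z'`). If `F/Z'` is a
  Calabi-Yau fibration of this kind, then only finitely many automorphisms over `Z'` act trivially.
* For example, by the Beauville-Bogomolov decomposition, smooth projective morphisms with numerically
  trivial relative canonical class have the form `Y ×_{Z'} F → Z'`, with irregularity `0` for the fibres
  of `F → Z'`, after a finite base change and a finite étale cover.

The nef cone of `X/Z` is in general not polyhedral, and the group is in general infinite, for example if
`X = Y ×_Z Y` for a family `Y → Z`, in which case it contains a subgroup of finite index of `GL(2, ℤ)`.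

Proof. The integral endomorphisms which commute with `𝒥` and `M` form an order `R` in a finite-dimensional
algebra over the rational numbers, and every relatively ample class `ω` defines a positive involution of
it. The class `E` corresponds to the symmetric element `a` with `E(v, w) = ω(v, a w)`. It is nef on one
fibre if and only if it is nef on all fibres, if and only if `a` is positive for the algebra with
involution. By the reduction theory in `Pool.Agent.Y167`, every positive definite `a` is moved by a unit
of `R` into one finitely generated rational cone; the units which are congruent to one modulo `k` have
finite index. For `F`, the theorem `Pool.Agent.W4h4.NR.descent` (a Siegel property of Dirichlet domains, and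
conjugacy classes of homomorphisms of the finite group) gives a finitely generated cone of invariant
classes, into which the invariant ample classes are moved by the centraliser of `Q` in `H`. The Dirichlet
domain of a suitable integral linear form is a rational polyhedral fundamental domain for `A^e(X/Z)`.
-/

namespace Pool.Agent.Results.MP_20d318_ag.AbelianFamilies

open Pool.Agent.W4h4.AS
open Pool.Agent.Y167 (cone)

/-- **The relative nef cone conjecture for fibre products with families of abelian varieties.** Let
`(Λ, 𝒥, M)` be the period data of a projective family `Y → Z'` of abelian varieties, and `(Θ, A, H, Q)` the
data of a projective morphism `F → Z'` which satisfies part (1) of the nef cone conjecture; here `M` and `Q`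
contain the action of the finite group `G`. Let `k > 0`, and let `𝒢` be a group of automorphisms of `N^1(X/Z)`,
where `X = (Y ×_{Z'} F) / G` and `Z = Z' / G`, which preserves the cone `A^e(X/Z)` and a lattice commensurable
with the lattice of integral classes, and which contains the pairs `(u^*, h_*)` for the automorphisms `u`
of level `k` of the family `Y`, and the automorphisms `h` of `F` over `Z'` which commute with `Q`; for example
`𝒢` is the image of `Aut(X/Z)`. Then there is a rational polyhedral cone in
`A^e(X/Z)`, spanned by a finite set `S` of integral classes, which is a fundamental domain for the action
of `𝒢` on `A^e(X/Z)`. -/
theorem result {V : Type*} [AddCommGroup V] [Module ℝ V] {Λ : AddSubgroup V}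
    {𝒥 M : Set (Module.End ℝ V)} (h : IsFamily Λ 𝒥 M) {G : Type*} [Group G] {ρ : ℕ}
    {Θ : Action G ρ} {A : Set (Fin ρ → ℝ)} {H Q : Subgroup G} (hF : IsFactor Θ A H Q)
    {k : ℕ} (hk : 0 < k) (𝒢 : LinGrp (N1X Λ 𝒥 M Θ Q)) (h𝒢 : IsAutGroup A H k 𝒢) :
    HasDomain A 𝒢 :=
  main h hk hF 𝒢 h𝒢

end Pool.Agent.Results.MP_20d318_ag.AbelianFamilies
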