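import Pool.Agent.W4h4.NR.BaseS

set_option autoImplicit false

/-!
# The relative nef cone conjecture for `(A × F) / G → (A'' × S) / G`

`A = V / Λ` is an abelian variety, `S` an arbitrary affine variety and `F → S` a projective morphism, where
`F` is normal and `ℚ`-factorial with free class group `Cl(F) = ℤ^ρ`. For example `F = S` is an arbitrary
affine variety (`ρ = 0`), or `S` is a point. Let `X = (A × F) / G`, where a finite group `G` acts
diagonally, on `A`, on `F` and on `S`; the action may have fixed points and fixed divisors. Let
`A → A'' = W / Λ''` be a fibration of abelian varieties compatible with `G`, given by a linear map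
`π : V → W`, and let `Z = (A'' × S) / G`; so `Z` is in general no torus quotient, and if `F = S`, its
dimension is at least the one of the arbitrary affine variety `S`. Let `Δ` be an effective divisor on `X`
with real coefficients such that `K_X + Δ` is numerically trivial over `Z` (only the curves of `X` which
come from curves `C × {point}` in `A × F` are needed).

We prove the Morrison-Kawamata cone conjecture for the nef cone of `(X/Z, Δ)` if the cone
`A^e(F/S)^G = Nef(F/S)^G ∩ Eff(F/S)^G` is rational polyhedral: `Aut(X/Z, Δ)` acts on the cone `A^e(X/Z)` of
nef and effective classes with a rational polyhedral fundamental domain.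

The condition is empty if `F = S` (see `isVariety_affine`, `polyF_affine` and `gradedFunctions` in
`Pool.Agent.W4h4.NR.BaseS`). In this case `X → Z` is a fibration whose general fibre is an abelian variety
(or a quotient of one), and which becomes a product after a finite base change. For example all smooth
projective morphisms `X → Z` whose fibres are isomorphic abelian varieties are of this form: the abelian
scheme becomes constant and the torsor, which is torsion, becomes trivial after a finite étale Galois
base change, and the Galois group acts on `A` by constant affine transformations. (If `Z` is only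
quasi-projective, then `N^1(X/Z)` and its cones do not change when `Z` is replaced by an open affine
subset, and the automorphisms which are used, see below, are defined over all of `Z`; so the theorem
applies also to this case.) The group `Aut(X/Z, Δ)` can be infinite, and the nef cone of `X/Z` is in general
not polyhedral.

The starting file `TorusQuotients` treats the case that `F` is a point, where `Z` is a torus quotient. The
hand-ins `ReductionToFibre` and `FromFibre` also treat the case that `Z` is a torus quotient; the group
there contains automorphisms which are not automorphisms over `S`.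

Proof. Every sheaf of rank one on `X` has a Chern form, restricted to the kernel `E` of `π`, and a degree in
`Cl(F)^G`, so `N^1(X/Z)` is the sum of a space of hermitian forms and of `N^1(F/S)^G`, and `A^e(X/Z)` is the
product of the corresponding cones. By the reduction theory of hermitian forms over the endomorphism
algebra, every positive definite form is moved into one finitely generated rational cone by a unit `f`;
a subgroup of finite index of the units has a lift `(f, id)` to `A × F`, with `π ∘ f = π`, which
normalises the group and preserves `Δ`. So the automorphisms used are automorphisms over `Z` (and even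
over `(A'' × F) / G`). The Dirichlet domain of a suitable integral linear form is a rational polyhedral
fundamental domain for `A^e(X/Z)`.

The definitions `Cl`, `Grp`, `Elt`, `base`, `Inv`, `IsQuotient`, `SemiampleF`, `Sheaf`, `EffDiv`,
`NumTrivial`, `N1`, `integral`, `nefCone`, `effCone`, `IsPullback` are in `Pool.Agent.X324.CF.Defs`;
`IsVariety`, `nefF`, `effF`, `nefEff`, `HasDomain` in `Pool.Agent.W4h4.NR.Defs`; `PolyF`, `IsAutGroupS` in
`Pool.Agent.W4h4.NR.DefsS`; `IsFibration` in `Pool.Agent.TH735.AQ.Defs`; `IsFundDomain` and `Preserves` in
`Pool.Agent.Y167.Stm`; `cone` in `Pool.Agent.Y167.ConeDef`.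
-/

namespace Pool.Agent.Results.MP_20d318_ag.OverAffineBase

open Pool.Agent.W594.SYZ2 Pool.Agent.TH735.AQ Pool.Agent.X324.CF Pool.Agent.W4h4.NR
open Pool.Agent.Y167 (AffGrp)
open Pool.Agent.Y167.CC (LinGrp)

/-- **The relative nef cone conjecture for `(A × F) / G → (A'' × S) / G`.** Let `F` be projective over the
affine variety `S` (the spectrum of the piece of degree `0` of `R = ⨁ 𝒜 β`), such that the cone
`A^e(F/S)^G` is rational polyhedral (this holds if `F = S`), `X = (V × F) / Γ` a projective quotient,
`X → Z = (W × S) / Γ` the fibration given by `π`, and `Δ` an effective divisor with real coefficients on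
`X` such that `K_X + Δ` is numerically trivial over `Z`. Here `E` is the kernel of `π`, embedded by `j`,
and `Γ'` is the group of the transformations of `W` which are induced by `Γ`. Then `Aut(X/Z, Δ)` acts on
`A^e(X/Z)` with a rational polyhedral fundamental domain. -/
theorem result {V W E R : Type*} [NormedAddCommGroup V] [NormedSpace ℂ V] [FiniteDimensional ℂ V]
    [NormedAddCommGroup W] [NormedSpace ℂ W] [FiniteDimensional ℂ W]
    [NormedAddCommGroup E] [NormedSpace ℂ E] [FiniteDimensional ℂ E]
    [CommRing R] [IsDomain R] [Algebra ℂ R] {ρ : ℕ}
    (𝒜 : Cl ρ → Submodule ℂ R) [GradedAlgebra 𝒜] (u : Cl ρ) (hF : IsVariety 𝒜 u)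
    (Γ : Grp V R) (hX : IsQuotient 𝒜 u Γ) (hpoly : PolyF 𝒜 u Γ)
    (hproj : ∃ (L : Sheaf 𝒜 Γ) (H : V → V → ℂ), L.IsChern H ∧ IsPositiveForm H)
    (Γ' : AffGrp W) (π : V →ₗ[ℂ] W) (hπ : IsFibration (base Γ) Γ' π)
    (j : E →ₗ[ℂ] V) (hj : Function.Injective j) (hjr : LinearMap.range j = LinearMap.ker π)
    {ι : Type*} [Fintype ι] (Δ : EffDiv 𝒜 Γ ι) (hΔ : NumTrivial Δ j)
    (𝒢 : LinGrp (N1 𝒜 Γ j)) (h𝒢 : IsAutGroupS u π Δ 𝒢) : HasDomain u 𝒢 :=
  overS hF hX hproj Γ' π hπ hj hjr Δ hΔ hpoly 𝒢 h𝒢

end Pool.Agent.Results.MP_20d318_ag.OverAffineBase
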