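import Pool.Agent.W4h4.NR.Final

set_option autoImplicit false

/-!
# The nef cone conjecture for quotients `(A × F) / G` is equivalent to the one for `(F, G)`

`A = V / Λ` is an abelian variety and `F` an **arbitrary** normal projective `ℚ`-factorial variety with
free class group (for instance a K3 surface, a hyperkähler manifold, a rational surface). Let
`X = (A × F) / G`, where a finite group `G` acts diagonally; the action may have fixed points and fixed
divisors. Let `X → Z` be a fibration given by a linear map `π : V → W`, where `Z = W / Γ'` is a quotient
of an abelian variety (or a point), and let `Δ` be an effective divisor on `X` with real coefficients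
such that `K_X + Δ` is numerically trivial over `Z` (only the curves of `X` which come from curves
`C × {point}` in `A × F` are needed).

We show that the Morrison-Kawamata cone conjecture for the nef cone of `(X/Z, Δ)` is equivalent to its
`G`-equivariant version for `F`: the group `Aut(X/Z, Δ)` acts on the cone `A^e(X/Z)` of nef and effective
classes with a rational polyhedral fundamental domain if and only if the automorphisms `ψ` of `F` which
are the second component of an automorphism `(f, ψ)` in `Aut(X/Z, Δ)` act on
`A^e(F)^G = Nef(F)^G ∩ Eff(F)^G` such that the translates of a rational polyhedral cone in `A^e(F)^G` cover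
`A^e(F)^G`. No hypothesis on the nef cone of `F` is made: it need not be polyhedral, and the automorphism
group of `F` may be infinite. So the factor `A`, the divisor `Δ` and the fibration `X → Z` are harmless,
and the conjecture for these pairs is reduced to varieties without abelian factor. (For `V = 0` the
theorem says, for `F / G` itself, that the existence of a fundamental domain is equivalent to the
covering property.)

In the starting files the nef cone of `F` is spanned by finitely many semiample classes. Here it is
enough that `A^e(F)^G` is rational polyhedral (`Pool.Agent.W4h4.NR.covered_of_polyhedral`), for example that the invariant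
part of `Cl(F)` has rank one, for arbitrary `F`.

Proof. `N^1(X/Z)` is the sum of a space of hermitian forms and of `N^1(F)^G`, and `A^e(X/Z)` is the product
of the corresponding cones. The cone `A^e(F)^G` is neither closed nor polyhedral; by Hahn-Banach and
compactness there is an integral linear form which is positive on the closed nef cone of `F`, and every
real class in the interior of the nef cone is a combination of semiample integral classes. An interior
class is moved first by an automorphism `(f, ψ)` into the part over the rational polyhedral cone in
`A^e(F)^G`, then by a unit `(f', id)` into a finitely generated cone (reduction theory of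
`Pool.Agent.Y167`). The cone `A^e(X/Z)`, which is not closed, is spanned by integral classes, and the
Dirichlet domain of a suitable integral linear form is a rational polyhedral fundamental domain
(Looijenga). For the converse one takes the degrees of the generators of the fundamental domain.

The definitions `Cl`, `Grp`, `Elt`, `base`, `IsQuotient`, `Sheaf`, `EffDiv`, `NumTrivial`, `N1`,
`integral`, `nefCone`, `effCone` are in `Pool.Agent.X324.CF.Defs`; `IsVariety`, `nefF`, `effF`, `act`,
`IsAut`, `IsPull`, `nefEff`, `IsAutGroup`, `HasDomain`, `Covered` in `Pool.Agent.W4h4.NR.Defs`; `IsFibration` in `Pool.Agent.TH735.AQ.Defs`; `IsFundDomain`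
and `Preserves` in `Pool.Agent.Y167.Stm`; `cone` in `Pool.Agent.Y167.ConeDef`.
-/

namespace Pool.Agent.Results.MP_20d318_ag.ReductionToFibre

open Pool.Agent.W594.SYZ2 Pool.Agent.TH735.AQ Pool.Agent.X324.CF Pool.Agent.W4h4.NR
open Pool.Agent.Y167 (AffGrp cone)
open Pool.Agent.Y167.CC (LinGrp Preserves IsFundDomain)

/-- **The nef cone conjecture for `(A × F) / G` is equivalent to the `G`-equivariant one for `F`.** Let `F`
be a projective variety, `X = (V × F) / Γ` a projective quotient, `X → Z = W / Γ'` a fibration and `Δ` an
effective divisor with real coefficients on `X` such that `K_X + Δ` is numerically trivial over `Z`.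
Here `E` is the kernel of `π`, embedded by `j`.

(1) If `A^e(F)^G` is covered by the translates of a rational polyhedral cone in `A^e(F)^G` under the
automorphisms of `F` which come from automorphisms of `X` over `Z` which preserve `Δ`, then
`Aut(X/Z, Δ)` acts on `A^e(X/Z)` with a rational polyhedral fundamental domain.

(2) If the group of the pullbacks by the automorphisms `(f, ψ)` of `X` over `Z` which preserve `Δ` acts on
`A^e(X/Z)` with a rational polyhedral fundamental domain, then `A^e(F)^G` is covered in this way. -/
theorem result {V W E R : Type*} [NormedAddCommGroup V] [NormedSpace ℂ V] [FiniteDimensional ℂ V]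
    [NormedAddCommGroup W] [NormedSpace ℂ W] [FiniteDimensional ℂ W]
    [NormedAddCommGroup E] [NormedSpace ℂ E] [FiniteDimensional ℂ E]
    [CommRing R] [IsDomain R] [Algebra ℂ R] {ρ : ℕ}
    (𝒜 : Cl ρ → Submodule ℂ R) [GradedAlgebra 𝒜] (u : Cl ρ) (hF : IsVariety 𝒜 u)
    (Γ : Grp V R) (hX : IsQuotient 𝒜 u Γ)
    (hproj : ∃ (L : Sheaf 𝒜 Γ) (H : V → V → ℂ), L.IsChern H ∧ IsPositiveForm H)
    (Γ' : AffGrp W) (π : V →ₗ[ℂ] W) (hπ : IsFibration (base Γ) Γ' π)
    (j : E →ₗ[ℂ] V) (hj : Function.Injective j) (hjr : LinearMap.range j = LinearMap.ker π)
    {ι : Type*} [Fintype ι] (Δ : EffDiv 𝒜 Γ ι) (hΔ : NumTrivial Δ j) :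
    (∀ 𝒢 : LinGrp (N1 𝒜 Γ j), IsAutGroup u Γ' π Δ 𝒢 → Covered u Γ' π Δ → HasDomain u 𝒢) ∧
    (∀ 𝒢 : LinGrp (N1 𝒜 Γ j), IsAutGroup u Γ' π Δ 𝒢 →
      (∀ g ∈ 𝒢, ∃ f ψ σ, IsAut u Γ' π Δ f ψ σ ∧ IsPull f σ g) →
      HasDomain u 𝒢 → Covered u Γ' π Δ) :=
  Pool.Agent.W4h4.NR.reduction 𝒜 u hF Γ hX hproj Γ' π hπ j hj hjr Δ hΔ

end Pool.Agent.Results.MP_20d318_ag.ReductionToFibre
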