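import Pool.Agent.W5h90.RD.Main
import Pool.Agent.W5h90.RD.Small

set_option autoImplicit false

/-!
# The relative nef cone conjecture for the factors `F i / S` implies the one for `(A × F) / G → (A'' × S) / G`

`A = V / Λ` is an abelian variety, `S` an **arbitrary affine variety** and `F = F₁ ×_S … ×_S Fₘ → S` an
**arbitrary** projective morphism, where `F` is normal and `ℚ`-factorial with free class group
`Cl(F) = Cl(F₁) ⊕ … ⊕ Cl(Fₘ) = ℤ^ρ` (for `m = 1` the variety `F` is arbitrary), such that a real class
which is numerically trivial over `S` is zero. For example `F → S` is a fibration in K3 surfaces,
Calabi-Yau or hyperkähler manifolds, a fibre product of such fibrations, or a crepant resolution, or a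
small contraction. Let `X = (A × F) / G`, where a finite group `G` (of pairs of an affine transformation of
`A` and an automorphism of the ring `R`, see below) acts diagonally; it may act non-trivially on the base
`S`, it may permute the factors of `F`, and may have fixed points and fixed divisors. Let
`A → A'' = W / Λ''` be a fibration of abelian varieties compatible with `G`, given by a linear map
`π : V → W`, and let `Z = (A'' × S) / G`. Let `Δ` be an effective divisor on `X` with real coefficients such
that `K_X + Δ` is numerically trivial over `Z` (only the curves of `X` which come from curves
`C × {point}` in `A × F` are needed).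

We show that the relative Morrison-Kawamata cone conjecture for the nef cones of the factors `F i / S`
**themselves** (without the group `G`, in the form of a covering) implies the cone conjecture for the nef
cone of `(X/Z, Δ)`: if for each factor the cone `A^e(F i / S) = Nef(F i / S) ∩ Eff(F i / S)` is covered by
the translates of a rational polyhedral cone under the automorphisms of `F i` over `S` which preserve (the
restrictions to the fibres `{a} × F` of) `Δ`, and if only finitely many automorphisms of `F` over `S` which
preserve `Δ` act trivially on `Cl(F)`, then `Aut(X/Z, Δ)` acts on the cone `A^e(X/Z)` of nef and effective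
classes with a rational polyhedral fundamental domain. For `V = 0` and `m = 1` the theorem says that the
cone conjecture for `F/S` implies the one for `(F/G) / (S/G)`, for any such group `G`. If the
pseudoeffective cone of `F/S` contains no line, we also prove the conjecture for the factors of relative
Picard number one, and for the factors of relative Picard number two with an automorphism over `S` which
preserves `Δ` and acts on the class group by a map whose square is not the identity. And we prove the
conjecture for `X/Z` if the cone `A^e(F/S)^G` of invariant classes is rational polyhedral (for instance if
`F` is a Mori dream space over `S`).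

Consequences (with theorems which are not formalised here; `Z` is a point). By the decomposition theorem
for klt varieties `X` with numerically trivial canonical divisor, `X` is a quotient of a product of an
abelian variety and irreducible Calabi-Yau and symplectic varieties `F i` by a finite group; so the
conjecture for `X` follows from the conjecture for these `F i` (without group), in the form of part (1).
By Ambro's theorem a projective klt log Calabi-Yau pair `(X, Δ)` is a quotient of a product of an abelian
variety and a pair `(F, Δ')` where all finite covers of `F` which are étale in codimension one have
irregularity zero; and if `F` has dimension at most two, then the conjecture is known for `F` by Totaro.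
So the conjecture holds for all pairs `(X, Δ)` with augmented irregularity at least `dim X - 2`, for
instance for all threefolds of positive augmented irregularity. In the relative case the conjecture is
known for `F/S` if `dim F = 3` and `dim S > 0`, `F` terminal and `K_F` numerically trivial over `S`
(Kawamata).

The condition on the automorphisms which act trivially on `Cl(F)` holds if `(F/S, Δ)` is a klt log
Calabi-Yau pair and the general fibres of `F → S` have no irregularity: these automorphisms fix a
relatively ample class, so they form an algebraic group over the function field of `S` with trivial
identity component. The class group `Cl(F)` may also have torsion, and `F` need not be `ℚ`-factorial: the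
theorem can be applied to a free subgroup of `Pic(F)` of finite index.

The hand-in `FromFibre` treats the case that `S` is a point and `m = 1`; the hand-in `OverAffineBase`
treats arbitrary `S`, but only with `A^e(F/S)^G` rational polyhedral, and both assume that the
pseudoeffective cone of `F/S` contains no line (for `dim S > 0` this excludes birational morphisms `F → S`
and reducible fibres over divisors of `S`). Here the automorphisms are automorphisms over `S`, which is not
fixed by `G`; the automorphisms of `R` which give the identity of `F` are no longer given by scalars, but
by invertible functions on `S`, on which `G` acts.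

Proof. The sections of `O_F(β)` are sums of products of sections on the factors, so the projections
`Cl(F) → Cl(F i)` preserve effective and semiample classes, `A^e(F/S)` is the sum of the cones
`A^e(F i / S)`, and it is covered by the translates of a rational polyhedral cone under products of
automorphisms of the factors. Let `H` be the group of the automorphisms of `F` over `S` which preserve `Δ`;
it is normalised by `G`. Dickson's lemma gives a rational polyhedral cone `D` in `A^e(F/S)` whose
translates under `HG` cover the ample cone, such that an integral linear form `ξ` which is positive on the
nef cone has on `D` the minimal value of its orbit. The elements of `HG` which fix an interior point of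
`A^e(F/S)` in `D` have a finite image in `GL(N^1(F/S))`. If `h ∈ H` moves a `G`-invariant ample class into
(a translate under `G` of) `D`, then `h g h⁻¹` is for every `g ∈ G` in this finite set modulo the kernel of
the action; so there are only finitely many homomorphisms `g ↦ h g h⁻¹`, and the elements `h` with the same
homomorphism form a coset of the centraliser of `G` in `H`. So the centraliser moves every `G`-invariant
ample class into one rational polyhedral cone, whose generators are replaced by the sums of their
translates under `G`. All this is done modulo the group of the automorphisms of `R` which are given by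
invertible functions on `S` on the homogeneous pieces. The elements of the centraliser give automorphisms
`(id, ψ)` of `X` over `Z`; together with the units of the endomorphism ring of `A` they move every interior
class of `A^e(X/Z)` into one rational polyhedral cone, as in `ReductionToFibre`.

The definitions `IsProduct`, `nefEffFac`, `IsFactorAut`, `FactorConj`, `FactorSmall` are in
`Pool.Agent.W5h90.RD.ProdDefs`; `IsVarietyS`, `PseffPointed`, `IsAutS`, `IsAutSD`, `FixesS`,
`FiniteKernelS`, `PolyS`, `IsAutXS`, `IsAutGroupXS` in `Pool.Agent.W5h90.RD.Defs`; `Cl`, `Grp`, `Elt`,
`base`, `IsQuotient`, `SemiampleF`, `Sheaf`, `EffDiv`, `NumTrivial`, `N1`, `integral`, `nefCone`, `effCone`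
in `Pool.Agent.X324.CF.Defs`; `act`, `IsPull`, `nefF`, `effF`, `nefEff`, `HasDomain` in
`Pool.Agent.W4h4.NR.Defs`; `nefCl`, `effCl`, `IsAutF` in `Pool.Agent.W4h4.NR.DefsF`; `IsFibration` in
`Pool.Agent.TH735.AQ.Defs`; `IsFundDomain` and `Preserves` in `Pool.Agent.Y167.Stm`; `cone` in
`Pool.Agent.Y167.ConeDef`.
-/

namespace Pool.Agent.Results.MP_20d318_ag.RelativeDescent

open Pool.Agent.W594.SYZ2 Pool.Agent.TH735.AQ Pool.Agent.X324.CF Pool.Agent.W4h4.NR
open Pool.Agent.W5h90.RD
open Pool.Agent.Y167 (AffGrp)
open Pool.Agent.Y167.CC (LinGrp)

/-- **The relative nef cone conjecture for the factors `F i / S` implies the one for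
`(A × F) / G → (A'' × S) / G`.** Let `F` be projective over the affine variety `S` (the spectrum of the piece
of degree `0` of `R = ⨁ 𝒜 β`), `X = (V × F) / Γ` a projective quotient, `X → Z = (W × S) / Γ` the fibration
given by `π`, and `Δ` an effective divisor with real coefficients on `X` such that `K_X + Δ` is numerically
trivial over `Z`. Here `E` is the kernel of `π`, embedded by `j`, and `Γ'` is the group of the
transformations of `W` which are induced by `Γ`. Assume that only finitely many of the automorphisms of `F`
over `S` which preserve `Δ` act trivially on `Cl(F)`, that `F` is the fibre product over `S` of varieties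
`F i` (for example of one), and that for each `i` the cone conjecture holds for `F i / S` and the group of
its automorphisms which preserve `Δ`, or the pseudoeffective cone of `F/S` contains no line and `Cl(F i)` has
rank one, or rank two and one of these automorphisms acts on it by a map `σ` with `σ² ≠ 1`; or assume that
`A^e(F/S)^G` is rational polyhedral. Then `Aut(X/Z, Δ)` acts on `A^e(X/Z)` with a rational polyhedral
fundamental domain. -/
theorem result {V W E R : Type*} [NormedAddCommGroup V] [NormedSpace ℂ V] [FiniteDimensional ℂ V]
    [NormedAddCommGroup W] [NormedSpace ℂ W] [FiniteDimensional ℂ W]
    [NormedAddCommGroup E] [NormedSpace ℂ E] [FiniteDimensional ℂ E]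
    [CommRing R] [IsDomain R] [Algebra ℂ R] {ρ : ℕ}
    (𝒜 : Cl ρ → Submodule ℂ R) [GradedAlgebra 𝒜] (u : Cl ρ) (hF : IsVarietyS 𝒜 u)
    (Γ : Grp V R) (hX : IsQuotient 𝒜 u Γ)
    (hproj : ∃ (L : Sheaf 𝒜 Γ) (H : V → V → ℂ), L.IsChern H ∧ IsPositiveForm H)
    (Γ' : AffGrp W) (π : V →ₗ[ℂ] W) (hπ : IsFibration (base Γ) Γ' π)
    (j : E →ₗ[ℂ] V) (hj : Function.Injective j) (hjr : LinearMap.range j = LinearMap.ker π)
    {ι : Type*} [Fintype ι] (Δ : EffDiv 𝒜 Γ ι) (hΔ : NumTrivial Δ j)
    (hcone : (FiniteKernelS u Δ ∧ ∃ (m : ℕ) (pr : Fin m → Cl ρ → Cl ρ), IsProduct 𝒜 pr ∧
      ∀ i, FactorConj u Δ (pr i) ∨ PseffPointed 𝒜 ∧ FactorSmall u Δ (pr i)) ∨ PolyS 𝒜 u Γ)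
    (𝒢 : LinGrp (N1 𝒜 Γ j)) (h𝒢 : IsAutGroupXS u π Δ 𝒢) : HasDomain u 𝒢 := by
  rcases hcone with ⟨hk, m, pr, hp, hc⟩ | hp
  · refine fibreS hF hX hproj Γ' π hπ hj hjr Δ hΔ hk (coneS_prod hp fun i => ?_) 𝒢 h𝒢
    rcases hc i with h | ⟨hP, h⟩
    · exact h
    · exact conj_small hF hP hp i h
  · exact polyS hF hX hproj Γ' π hπ hj hjr Δ hΔ hp 𝒢 h𝒢

end Pool.Agent.Results.MP_20d318_ag.RelativeDescent
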